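import Mathlib

/-!
# Almost-equidistant sets of diameter one (MP_8e9e20_co): statements of the parts

`g(d) ≤ 2 d + 1`, `g(3 k + r - 1) ≥ 5 k + r`, `g(1) = 3`, `g(2) = 5`.
-/

set_option autoImplicit false

namespace Pool.Agent.Helper78.AE

/-- among any three points of `V` two have distance one -/
def AlmostEquidistant {d : ℕ} (V : Finset (EuclideanSpace ℝ (Fin d))) : Prop :=
  ∀ x ∈ V, ∀ y ∈ V, ∀ z ∈ V, x ≠ y → y ≠ z → x ≠ z → dist x y = 1 ∨ dist y z = 1 ∨ dist x z = 1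

/-- `V` is almost-equidistant and has diameter one -/
def AEDiam {d : ℕ} (V : Finset (EuclideanSpace ℝ (Fin d))) : Prop :=
  AlmostEquidistant V ∧ Metric.diam (V : Set (EuclideanSpace ℝ (Fin d))) = 1

/-- The matrix `A i j = 1 - dist (v i) (v j) ^ 2` (`i ≠ j`), `A i i = 0`. -/
structure Cfg (n d : ℕ) (A : Matrix (Fin n) (Fin n) ℝ) : Prop where
  symm : ∀ i j, A i j = A j i
  nonneg : ∀ i j, 0 ≤ A i j
  diag : ∀ i, A i i = 0
  lt_one : ∀ i j, A i j < 1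
  tri : ∀ i j k, A i j * A j k * A k i = 0
  pts : ∃ v : Fin n → EuclideanSpace ℝ (Fin d), ∀ x : Fin n → ℝ, ∑ i, x i = 0 →
    x ⬝ᵥ A.mulVec x + x ⬝ᵥ x = 2 * ‖∑ i, x i • v i‖ ^ 2

/-- GEO. Enumerate `V` by `v : Fin n → _` (injective), `A i j = 1 - dist ^ 2` for `i ≠ j`, `0` on the
diagonal. `tri`: if `A i j A j k A k i ≠ 0` then `i, j, k` are distinct and no distance is `1`.
`pts`: for `∑ x = 0` expand `‖∑ x i • v i‖ ^ 2 = ∑∑ x i x j ⟪v i, v j⟫` and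
`⟪v i, v j⟫ = (‖v i‖² + ‖v j‖² - dist²) / 2`; the terms `‖v i‖²` drop out as `∑ x = 0`; and
`∑∑ x i x j (1 - dist²) = ∑∑ x i x j (A + 1) i j`. -/
def S_GEO : Prop :=
  ∀ (d : ℕ) (V : Finset (EuclideanSpace ℝ (Fin d))), AEDiam V →
    ∃ A : Matrix (Fin V.card) (Fin V.card) ℝ, Cfg V.card d A

/-- the equality case with a negative eigenvalue -/
def Two {n : ℕ} (A : Matrix (Fin n) (Fin n) ℝ) (t : ℝ) (u w : Fin n → ℝ) : Prop :=
  1 < t ∧ A.mulVec u = t • u ∧ A.mulVec w = -t • w ∧ u ⬝ᵥ u = 1 ∧ w ⬝ᵥ w = 1 ∧ u ⬝ᵥ w = 0 ∧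
    A * A = 1 + (t ^ 2 - 1) • (Matrix.vecMulVec u u + Matrix.vecMulVec w w)

/-- SPECB. Spectral bounds. Let `μ i` be the eigenvalues of `A` (`Matrix.IsHermitian.eigenvalues`) with the
orthonormal eigenbasis. (1) sum of the eigenvalues = trace = 0, (2) sum of the cubes = trace of
`A ^ 3` = 0 (by `tri`), (3) at most one index has `μ i < -1` (two such eigenvectors: a nonzero
combination `x` with `∑ x = 0` has `x A x + x x < 0`, but it is `2 ‖..‖² ≥ 0`), (4) at most `d + 1` indices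
have `μ i > -1` (on the span of these eigenvectors intersected with `∑ x = 0` the form is positive, so
`x ↦ ∑ x i • v i` is injective there), (5) if `μ i < -1` there is `j` with `μ j ≥ - μ i` (Perron: for the
eigenvector `x` of `μ i`, `|x| A |x| ≥ |x A x| = - μ i`, and `|x| A |x| = ∑ μ j ⟨|x|, e j⟩² ≤ max μ`).
`e` = the eigenvectors. -/
def S_SPECB : Prop :=
  ∀ (n d : ℕ) (A : Matrix (Fin n) (Fin n) ℝ), Cfg n d A →
    ∃ (μ : Fin n → ℝ) (e : Fin n → Fin n → ℝ),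
      (∀ i, A.mulVec (e i) = μ i • e i) ∧ (∀ i, e i ⬝ᵥ e i = 1) ∧
      (∀ i j, i ≠ j → e i ⬝ᵥ e j = 0) ∧
      (∀ x : Fin n → ℝ, x = ∑ i, (e i ⬝ᵥ x) • e i) ∧
      ∑ i, μ i = 0 ∧ ∑ i, μ i ^ 3 = 0 ∧
      (∀ i j, μ i < -1 → μ j < -1 → i = j) ∧
      (Finset.univ.filter fun i => -1 < μ i).card ≤ d + 1 ∧
      (∀ i, μ i < -1 → ∃ j, - μ i ≤ μ j)

/-- CORE (from SPECB). `φ(x) = x³ - x`; `φ(x) ≥ 2 (x - 1)` for `x ≥ -2` as
`x³ - 3x + 2 = (x - 1)² (x + 2)`; and `φ(x) - φ(t) ≥ 2 (x - t)` for `x ≥ t ≥ 1`. `P = {μ > -1}`,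
`Z = {μ = -1}`, `N = {μ < -1}`. If `N = ∅`: `0 = ∑ φ ≥ 2 (∑_P μ - |P|) = 2 (|Z| - |P|)`, so
`n ≤ 2 |P| ≤ 2 d + 2`; equality only if all `μ = ±1`, then `A² = 1`. If `N = {i}`, `t = - μ i`, `μ j ≥ t`:
`0 = ∑ φ ≥ 2 (μ j - t) + 2 ∑_{P, ≠ j} (μ - 1) = 2 (|Z| - |P| + 1)`, so `n ≤ 2 |P| ≤ 2 d + 2`; equality
only if `μ j = t` and all the other `μ` of `P` are `1`: this is `Two A t (e j) (e i)` (expand in the
eigenbasis). -/
def S_CORE : Prop :=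
  ∀ (n d : ℕ) (A : Matrix (Fin n) (Fin n) ℝ), Cfg n d A →
    n ≤ 2 * d + 1 ∨ A * A = 1 ∨ ∃ (t : ℝ) (u w : Fin n → ℝ), Two A t u w

/-- EQ1. If `A² = 1` and `n ≠ 0`: row `i`: `∑ A i j ² = 1` with entries `< 1`, so there are `j ≠ l` with
`A i j, A i l > 0`; but `(A²) j l ≥ A j i A i l > 0`. -/
def S_EQ1 : Prop :=
  ∀ (n d : ℕ) (A : Matrix (Fin n) (Fin n) ℝ), Cfg n d A → 0 < n → A * A ≠ 1

/-- EQ2A: `|w|` is `± u`, and positive. `y = |w|` (coordinatewise): `y A y ≥ |w A w| = t`, and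
`‖A y - t y‖² = y A² y - 2 t y A y + t² ≤ 0` since `y A² y = 1 + (t²-1)(⟨u,y⟩² + ⟨w,y⟩²) ≤ t²` (Bessel). So
`A y = t y`, and `A² y = t² y` gives `y = ⟨u,y⟩ u + ⟨w,y⟩ w`, applying `A`: `⟨w,y⟩ = 0`, `y = ± u`,
`vecMulVec y y = vecMulVec u u`. Positive: if `y i = 0` then `w i = 0`, `(A²) i i = 1`,
`(A²) i m = 0` for `m ≠ i`; since entries are `< 1` there is `j` with `A i j > 0` and `j` has no
neighbour except `i` (else `(A²) i m > 0`), so `(A²) j j = A j i ² < 1`, but `(A²) j j ≥ 1`. -/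
def S_EQ2A : Prop :=
  ∀ (n d : ℕ) (A : Matrix (Fin n) (Fin n) ℝ), Cfg n d A → ∀ (t : ℝ) (u w : Fin n → ℝ),
    Two A t u w → Two A t (fun i => |w i|) w ∧ ∀ i, 0 < |w i|

/-- EQ2B (from EQ2A): contradiction. Let `u = |w| > 0`, `ε i = w i / u i = ± 1`. From `A u = t u`, `A w = - t w`:
`∑ j, A i j u j (1 + ε i ε j) = 0`, so `ε i A i j = - A i j ε j`. `∑ ε = 0`: from
`∑ ε i (A²) i i = 0` (antisymmetry) and `(A²) i i = 1 + 2 (t² - 1) u i ²`, `∑ ε i u i ² = u·w = 0`. If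
`A z = - z` then `∑ z = 0` (else `x = w - c z` with `∑ x = 0` has `x A x + x x = 1 - t < 0`, contradiction
to `pts`); in the same way `∑ w ≠ 0`. Let `f = (A² - t²) 1` and `g = A f - f`. Then `A g = - g` (as
`(A² - 1)(A² - t²) = 0`), and `‖g‖² = ⟨(A-1)(A²-t²) g, 1⟩ = -2 (1 - t²) ∑ g = 0`. So `A f = f`, so
`A (ε f) = - ε f`, so `∑ ε i f i = 0`. But `f = (1 - t²) 1 + (t² - 1)((∑ u) u + (∑ w) w)`, so
`∑ ε f = (t² - 1) · 2 (∑ u) (∑ w)`, so `∑ w = 0`, contradiction. -/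
def S_EQ2B : Prop :=
  ∀ (n d : ℕ) (A : Matrix (Fin n) (Fin n) ℝ), Cfg n d A → ∀ (t : ℝ) (u w : Fin n → ℝ),
    ¬ Two A t u w

/-- LOWA: points in `R^(3k+r)`: block `i < k`: `(R cos (2 π m / 5), R sin (2 π m / 5), c)`, `m < 5`,
`R² = 1 / (2 (1 - cos (4 π / 5)))`, `c² = 1/2 - R²`, in the coordinates of block `i`; and `r` points
`e_j / √2`. All norms are `1/√2`, different blocks are orthogonal, so their distance is `1`. In one block:
distance `1` if `m - m' = ± 2`, smaller if `± 1`. `L p = 1` where `L = ∑ (c-coordinates) / c + √2 ∑ (others)`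
(given by the vector `l`). -/
def S_LOWA : Prop :=
  ∀ k r : ℕ, 1 ≤ k → ∃ (V : Finset (EuclideanSpace ℝ (Fin (3 * k + r))))
    (l : EuclideanSpace ℝ (Fin (3 * k + r))), l ≠ 0 ∧ V.card = 5 * k + r ∧ AEDiam V ∧
      ∀ p ∈ V, inner ℝ l p = (1 : ℝ)

/-- LOWB: a finite set in a hyperplane of `R^(m+1)` has an isometric copy in `R^m` (the orthogonal
complement of `l` has dimension `m`; translate by a point of `V`; `stdOrthonormalBasis`). -/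
def S_LOWB : Prop :=
  ∀ (m : ℕ) (V : Finset (EuclideanSpace ℝ (Fin (m + 1)))) (l : EuclideanSpace ℝ (Fin (m + 1))),
    l ≠ 0 → AEDiam V → (∀ p ∈ V, inner ℝ l p = (1 : ℝ)) →
    ∃ V' : Finset (EuclideanSpace ℝ (Fin m)), V'.card = V.card ∧ AEDiam V'

/-- LOW1: the three points `0, 1/2, 1`. -/
def S_LOW1 : Prop := ∃ V : Finset (EuclideanSpace ℝ (Fin 1)), V.card = 3 ∧ AEDiam V

end Pool.Agent.Helper78.AE
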