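import Pool.Agent.Helper78.AE.Spec

set_option autoImplicit false

namespace Pool.Agent.Helper78.AE.EQ1

open Pool.Agent.Helper78.AE Finset Matrix

theorem main : S_EQ1 := by
  intro n d A hA hn h
  have hrow : ∑ j, A ⟨0, hn⟩ j * A ⟨0, hn⟩ j = 1 := by
    have h1 := congrFun (congrFun h ⟨0, hn⟩) ⟨0, hn⟩
    rw [Matrix.mul_apply, Matrix.one_apply_eq] at h1
    rw [← h1]
    exact sum_congr rfl fun j _ => by rw [hA.symm j]
  -- two different positive entries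
  obtain ⟨j, hj⟩ : ∃ j, 0 < A ⟨0, hn⟩ j := by
    by_contra hno
    push Not at hno
    have h2 : ∑ j, A ⟨0, hn⟩ j * A ⟨0, hn⟩ j = 0 := sum_eq_zero fun j _ => by
      have := le_antisymm (hno j) (hA.nonneg _ _)
      rw [this, mul_zero]
    rw [h2] at hrow
    exact zero_ne_one hrow
  obtain ⟨l, hl, hlj⟩ : ∃ l, 0 < A ⟨0, hn⟩ l ∧ l ≠ j := by
    by_contra hno
    push Not at hno
    have h2 : ∑ l, A ⟨0, hn⟩ l * A ⟨0, hn⟩ l = A ⟨0, hn⟩ j * A ⟨0, hn⟩ j := by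
      refine sum_eq_single j (fun l _ hl => ?_) (fun h => absurd (mem_univ j) h)
      have h3 : ¬ 0 < A ⟨0, hn⟩ l := fun h4 => hl (hno l h4)
      have h4 := le_antisymm (not_lt.1 h3) (hA.nonneg _ _)
      rw [h4, mul_zero]
    rw [h2] at hrow
    have h5 := hA.lt_one ⟨0, hn⟩ j
    nlinarith
  have h6 := congrFun (congrFun h j) l
  rw [Matrix.mul_apply, Matrix.one_apply_ne hlj.symm] at h6
  have h7 : A j ⟨0, hn⟩ * A ⟨0, hn⟩ l ≤ ∑ k, A j k * A k l :=
    single_le_sum (f := fun k => A j k * A k l)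
      (fun k _ => mul_nonneg (hA.nonneg _ _) (hA.nonneg _ _)) (mem_univ _)
  rw [h6, hA.symm j] at h7
  exact absurd (mul_pos hj hl) (not_lt.2 h7)

end Pool.Agent.Helper78.AE.EQ1
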