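import Pool.Agent.Helper78.AE.Spec

/-!
# Assembly
-/

set_option autoImplicit false

namespace Pool.Agent.Helper78.AE

theorem upper (hGEO : S_GEO) (hCORE : S_CORE) (hEQ1 : S_EQ1) (hEQ2B : S_EQ2B) (d : ℕ)
    (V : Finset (EuclideanSpace ℝ (Fin d))) (hV : AEDiam V) : V.card ≤ 2 * d + 1 := by
  obtain ⟨A, hA⟩ := hGEO d V hV
  rcases hCORE _ d A hA with h | h | ⟨t, u, w, h⟩
  · exact h
  · rcases Nat.eq_zero_or_pos V.card with h0 | h0
    · omega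
    · exact absurd h (hEQ1 _ d A hA h0)
  · exact absurd h (hEQ2B _ d A hA t u w)

theorem lower (hLOWA : S_LOWA) (hLOWB : S_LOWB) (d : ℕ) (hd : 2 ≤ d) :
    ∃ V : Finset (EuclideanSpace ℝ (Fin d)), AEDiam V ∧ V.card = d + 1 + 2 * ((d + 1) / 3) := by
  have h1 := hLOWA ((d + 1) / 3) ((d + 1) % 3) (by omega)
  have h2 : 3 * ((d + 1) / 3) + (d + 1) % 3 = d + 1 := Nat.div_add_mod _ _
  rw [h2] at h1
  obtain ⟨V, l, hl, hc, hV, hp⟩ := h1
  obtain ⟨V', hc', hV'⟩ := hLOWB d V l hl hV hp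
  exact ⟨V', hV', by omega⟩

end Pool.Agent.Helper78.AE
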