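import Pool.Agent.Helper78.AE.Spec

set_option autoImplicit false

namespace Pool.Agent.Helper78.AE.SPECB

open Pool.Agent.Helper78.AE Finset Matrix

variable {n : ℕ} {A : Matrix (Fin n) (Fin n) ℝ} {μ : Fin n → ℝ} {e : Fin n → Fin n → ℝ}

theorem dot_sum (x : Fin n → ℝ) (c : Fin n → ℝ) : x ⬝ᵥ (∑ k, c k • e k) = ∑ k, c k * (x ⬝ᵥ e k) := by
  rw [dotProduct_sum]
  refine sum_congr rfl fun k _ => ?_
  rw [dotProduct_smul, smul_eq_mul]

theorem coef (h1 : ∀ i, e i ⬝ᵥ e i = 1) (h2 : ∀ i j, i ≠ j → e i ⬝ᵥ e j = 0) (c : Fin n → ℝ)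
    (i : Fin n) : e i ⬝ᵥ (∑ k, c k • e k) = c i := by
  rw [dot_sum, sum_eq_single i]
  · rw [h1, mul_one]
  · intro b _ hb
    rw [h2 i b hb.symm, mul_zero]
  · intro h
    exact absurd (mem_univ i) h

theorem dot_self (h1 : ∀ i, e i ⬝ᵥ e i = 1) (h2 : ∀ i j, i ≠ j → e i ⬝ᵥ e j = 0)
    (c d : Fin n → ℝ) : (∑ k, c k • e k) ⬝ᵥ (∑ k, d k • e k) = ∑ k, c k * d k := by
  rw [dot_sum]
  refine sum_congr rfl fun k _ => ?_
  rw [dotProduct_comm, coef h1 h2, mul_comm]

theorem mulVec_lin (hA : ∀ i, A.mulVec (e i) = μ i • e i) (c : Fin n → ℝ) :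
    A.mulVec (∑ k, c k • e k) = ∑ k, (c k * μ k) • e k := by
  rw [Matrix.mulVec_sum]
  refine sum_congr rfl fun k _ => ?_
  rw [Matrix.mulVec_smul, hA, smul_smul]

theorem quad (hA : ∀ i, A.mulVec (e i) = μ i • e i) (h1 : ∀ i, e i ⬝ᵥ e i = 1)
    (h2 : ∀ i j, i ≠ j → e i ⬝ᵥ e j = 0) (c : Fin n → ℝ) :
    (∑ k, c k • e k) ⬝ᵥ A.mulVec (∑ k, c k • e k) = ∑ k, c k ^ 2 * μ k := by
  rw [mulVec_lin hA, dot_self h1 h2]
  refine sum_congr rfl fun k _ => ?_
  ring

/-- the form of `A + 1` -/
theorem quad1 (hA : ∀ i, A.mulVec (e i) = μ i • e i) (h1 : ∀ i, e i ⬝ᵥ e i = 1)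
    (h2 : ∀ i j, i ≠ j → e i ⬝ᵥ e j = 0) (c : Fin n → ℝ) :
    (∑ k, c k • e k) ⬝ᵥ A.mulVec (∑ k, c k • e k) + (∑ k, c k • e k) ⬝ᵥ (∑ k, c k • e k) =
      ∑ k, c k ^ 2 * (μ k + 1) := by
  rw [quad hA h1 h2, dot_self h1 h2, ← sum_add_distrib]
  refine sum_congr rfl fun k _ => ?_
  ring

theorem complete (hx : ∀ x : Fin n → ℝ, x = ∑ i, (e i ⬝ᵥ x) • e i) (k l : Fin n) :
    ∑ i, e i k * e i l = if k = l then 1 else 0 := by
  have h := congrFun (hx (Pi.single l 1)) k
  simp only [Finset.sum_apply, Pi.smul_apply, smul_eq_mul, dotProduct_single, mul_one] at h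
  rw [Pi.single_apply] at h
  rw [h]
  exact sum_congr rfl fun i _ => mul_comm _ _

theorem trace_eq (hx : ∀ x : Fin n → ℝ, x = ∑ i, (e i ⬝ᵥ x) • e i)
    (B : Matrix (Fin n) (Fin n) ℝ) : ∑ i, e i ⬝ᵥ B.mulVec (e i) = B.trace := by
  simp only [dotProduct, mulVec, mul_sum]
  rw [sum_comm]
  unfold Matrix.trace
  refine sum_congr rfl fun k _ => ?_
  rw [sum_comm]
  have h1 : ∀ l, ∑ i, e i k * (B k l * e i l) = B k l * if k = l then 1 else 0 := by
    intro l
    rw [← complete hx k l, mul_sum]
    exact sum_congr rfl fun i _ => by ring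
  simp only [h1, mul_ite, mul_one, mul_zero, sum_ite_eq, mem_univ, if_true, Matrix.diag_apply]

theorem main : S_SPECB := by
  intro n d A hA
  have hH : A.IsHermitian := by
    ext i j
    rw [conjTranspose_apply, star_trivial]
    exact hA.symm j i
  obtain ⟨μ, e, he, h1, h2, hx⟩ : ∃ (μ : Fin n → ℝ) (e : Fin n → Fin n → ℝ),
      (∀ i, A.mulVec (e i) = μ i • e i) ∧ (∀ i, e i ⬝ᵥ e i = 1) ∧
      (∀ i j, i ≠ j → e i ⬝ᵥ e j = 0) ∧ (∀ x : Fin n → ℝ, x = ∑ i, (e i ⬝ᵥ x) • e i) := by
    have hin : ∀ x y : EuclideanSpace ℝ (Fin n), inner ℝ x y =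
        (WithLp.ofLp x) ⬝ᵥ (WithLp.ofLp y) := by
      intro x y
      simp [PiLp.inner_apply, dotProduct, mul_comm]
    refine ⟨hH.eigenvalues, fun i => WithLp.ofLp (hH.eigenvectorBasis i), ?_, ?_, ?_, ?_⟩
    · intro i
      exact hH.mulVec_eigenvectorBasis i
    · intro i
      rw [← hin, real_inner_self_eq_norm_sq, hH.eigenvectorBasis.norm_eq_one, one_pow]
    · intro i j hij
      rw [← hin]
      exact hH.eigenvectorBasis.inner_eq_zero hij
    · intro x
      have h := hH.eigenvectorBasis.sum_repr (WithLp.toLp 2 x)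
      have h' := congrArg WithLp.ofLp h
      rw [WithLp.ofLp_sum] at h'
      refine h'.symm.trans (sum_congr rfl fun i _ => ?_)
      rw [WithLp.ofLp_smul, OrthonormalBasis.repr_apply_apply, hin]
  obtain ⟨v, hv⟩ := hA.pts
  refine ⟨μ, e, he, h1, h2, hx, ?_, ?_, ?_, ?_, ?_⟩
  · have h := trace_eq hx A
    have h3 : ∀ i, e i ⬝ᵥ A.mulVec (e i) = μ i := by
      intro i
      rw [he, dotProduct_smul, h1, smul_eq_mul, mul_one]
    simp only [h3] at h
    rw [h]
    unfold Matrix.trace
    exact sum_eq_zero fun i _ => hA.diag i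
  · have h := trace_eq hx (A * A * A)
    have h3 : ∀ i, e i ⬝ᵥ (A * A * A).mulVec (e i) = μ i ^ 3 := by
      intro i
      rw [← mulVec_mulVec, ← mulVec_mulVec, he, mulVec_smul, he, mulVec_smul, mulVec_smul, he,
        dotProduct_smul, dotProduct_smul, dotProduct_smul, h1]
      simp only [smul_eq_mul]
      ring
    simp only [h3] at h
    rw [h]
    unfold Matrix.trace
    refine sum_eq_zero fun i _ => ?_
    rw [Matrix.diag_apply, Matrix.mul_apply]
    refine sum_eq_zero fun k _ => ?_
    rw [Matrix.mul_apply, sum_mul]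
    exact sum_eq_zero fun j _ => hA.tri i j k
  · intro i j hi hj
    by_contra hij
    -- a combination with sum zero
    obtain ⟨a, b, hab, hs⟩ : ∃ a b : ℝ, (a ≠ 0 ∨ b ≠ 0) ∧
        a * ∑ k, e i k + b * ∑ k, e j k = 0 := by
      by_cases h : ∑ k, e j k = 0
      · exact ⟨0, 1, Or.inr one_ne_zero, by rw [h]; ring⟩
      · exact ⟨∑ k, e j k, -∑ k, e i k, Or.inl h, by ring⟩
    let c : Fin n → ℝ := fun k => if k = i then a else if k = j then b else 0
    have hc : ∀ f : Fin n → ℝ, ∑ k, c k * f k = a * f i + b * f j := by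
      intro f
      have h3 : ∀ k, c k * f k = (if k = i then a * f k else 0) + (if k = j then b * f k else 0) := by
        intro k
        simp only [c]
        by_cases hk : k = i
        · subst hk
          simp [hij]
        · simp [hk]
      simp only [h3, sum_add_distrib, sum_ite_eq', mem_univ, if_true]
    have hsum : ∑ l, (∑ k, c k • e k) l = 0 := by
      simp only [Finset.sum_apply, Pi.smul_apply, smul_eq_mul]
      rw [sum_comm]
      simp only [← mul_sum]
      rw [hc]
      exact hs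
    have h4 := hv _ hsum
    rw [quad1 he h1 h2] at h4
    have h5 : ∑ k, c k ^ 2 * (μ k + 1) = a ^ 2 * (μ i + 1) + b ^ 2 * (μ j + 1) := by
      have h6 := hc (fun k => c k * (μ k + 1))
      have h7 : ∀ k, c k ^ 2 * (μ k + 1) = c k * (c k * (μ k + 1)) := fun k => by ring
      simp only [h7]
      rw [h6]
      have hci : c i = a := by simp [c]
      have hcj : c j = b := by
        simp only [c]
        rw [if_neg (Ne.symm hij)]
        simp
      rw [hci, hcj]
      ring
    rw [h5] at h4
    have h8 : 0 ≤ 2 * ‖∑ i, (∑ k, c k • e k) i • v i‖ ^ 2 := by positivity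
    rw [← h4] at h8
    rcases hab with h | h
    · have := sq_pos_of_ne_zero h
      nlinarith [sq_nonneg b]
    · have := sq_pos_of_ne_zero h
      nlinarith [sq_nonneg a]
  · by_contra hcard
    push Not at hcard
    set P := univ.filter fun i => -1 < μ i with hP
    -- the linear map
    let ext : (P → ℝ) →ₗ[ℝ] (Fin n → ℝ) :=
      { toFun := fun c => ∑ k : P, c k • e k
        map_add' := by
          intro c c'
          rw [← sum_add_distrib]
          exact sum_congr rfl fun k _ => by rw [Pi.add_apply, add_smul]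
        map_smul' := by
          intro r c
          rw [RingHom.id_apply, smul_sum]
          exact sum_congr rfl fun k _ => by rw [Pi.smul_apply, smul_eq_mul, mul_smul] }
    let F : (Fin n → ℝ) →ₗ[ℝ] (EuclideanSpace ℝ (Fin d)) × ℝ :=
      LinearMap.prod
        { toFun := fun x => ∑ i, x i • v i
          map_add' := by
            intro x y
            rw [← sum_add_distrib]
            exact sum_congr rfl fun k _ => by rw [Pi.add_apply, add_smul]
          map_smul' := by
            intro r x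
            rw [RingHom.id_apply, smul_sum]
            exact sum_congr rfl fun k _ => by rw [Pi.smul_apply, smul_eq_mul, mul_smul] }
        { toFun := fun x => ∑ i, x i
          map_add' := by
            intro x y
            simp [sum_add_distrib]
          map_smul' := by
            intro r x
            simp [mul_sum] }
    have hfin : Module.finrank ℝ ((EuclideanSpace ℝ (Fin d)) × ℝ) <
        Module.finrank ℝ (P → ℝ) := by
      rw [Module.finrank_prod, finrank_euclideanSpace, Fintype.card_fin, Module.finrank_self,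
        Module.finrank_fintype_fun_eq_card, Fintype.card_coe]
      exact hcard
    have hker := LinearMap.ker_ne_bot_of_finrank_lt (f := F.comp ext) hfin
    obtain ⟨c, hc, hc0⟩ := (Submodule.ne_bot_iff _).1 hker
    rw [LinearMap.mem_ker, LinearMap.comp_apply] at hc
    have hc1 : ∑ i, (ext c) i • v i = 0 := congrArg Prod.fst hc
    have hc2 : ∑ i, (ext c) i = 0 := congrArg Prod.snd hc
    let c' : Fin n → ℝ := fun k => if h : k ∈ P then c ⟨k, h⟩ else 0
    have hext : ext c = ∑ k, c' k • e k := by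
      change ∑ k : P, c k • e k = _
      rw [← sum_subset (subset_univ P), ← sum_coe_sort P (fun k => c' k • e k)]
      · refine sum_congr rfl fun k _ => ?_
        simp only [c']
        rw [dif_pos k.2]
      · intro k _ hk
        simp only [c']
        rw [dif_neg hk, zero_smul]
    have h4 := hv _ hc2
    rw [hc1, norm_zero] at h4
    rw [hext, quad1 he h1 h2] at h4
    have h5 : ∀ k ∈ (univ : Finset (Fin n)), 0 ≤ c' k ^ 2 * (μ k + 1) := by
      intro k _
      simp only [c']
      by_cases hk : k ∈ P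
      · rw [dif_pos hk]
        rw [hP, mem_filter] at hk
        have : 0 < μ k + 1 := by linarith [hk.2]
        positivity
      · rw [dif_neg hk]
        simp
    have h6 : ∑ k, c' k ^ 2 * (μ k + 1) = 0 := by
      rw [h4]
      ring
    have h7 := (sum_eq_zero_iff_of_nonneg h5).1 h6
    apply hc0
    ext ⟨k, hk⟩
    have h8 := h7 k (mem_univ k)
    simp only [c'] at h8
    rw [dif_pos hk] at h8
    have hk' := hk
    rw [hP, mem_filter] at hk'
    have h9 : μ k + 1 ≠ 0 := by linarith [hk'.2] |> fun h : 0 < μ k + 1 => h.ne'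
    rcases mul_eq_zero.1 h8 with h10 | h10
    · simpa using h10
    · exact absurd h10 h9
  · intro i hi
    by_contra hno
    push Not at hno
    set y : Fin n → ℝ := fun k => |e i k| with hy
    have hyx := hx y
    set c : Fin n → ℝ := fun k => e k ⬝ᵥ y with hc
    have h3 : y ⬝ᵥ y = 1 := by
      rw [← h1 i]
      simp only [dotProduct, hy]
      exact sum_congr rfl fun k _ => abs_mul_abs_self _
    have h4 : -μ i ≤ y ⬝ᵥ A.mulVec y := by
      have h5 : e i ⬝ᵥ A.mulVec (e i) = μ i := by
        rw [he, dotProduct_smul, h1, smul_eq_mul, mul_one]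
      rw [← h5]
      simp only [dotProduct, mulVec, mul_sum, ← sum_neg_distrib]
      refine sum_le_sum fun k _ => sum_le_sum fun l _ => ?_
      simp only [hy]
      have h6 := hA.nonneg k l
      have h7 : -(e i k * (A k l * e i l)) = A k l * (-(e i k * e i l)) := by ring
      have h8 : |e i k| * (A k l * |e i l|) = A k l * |e i k * e i l| := by rw [abs_mul]; ring
      rw [h7, h8]
      exact mul_le_mul_of_nonneg_left (neg_le_abs _) h6
    have h5 : y ⬝ᵥ y = ∑ k, c k * c k := by
      conv_lhs => rw [hyx]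
      exact dot_self h1 h2 _ _
    have h6 : y ⬝ᵥ A.mulVec y = ∑ k, c k ^ 2 * μ k := by
      conv_lhs => rw [hyx]
      exact quad he h1 h2 _
    rw [h3] at h5
    rw [h6] at h4
    have h7 : ∀ k ∈ (univ : Finset (Fin n)), 0 ≤ c k ^ 2 * (-μ i - μ k) := by
      intro k _
      have := hno k
      have h8 : 0 < -μ i - μ k := by linarith
      positivity
    have h8 : ∑ k, c k ^ 2 * (-μ i - μ k) = (-μ i) * ∑ k, c k * c k - ∑ k, c k ^ 2 * μ k := by
      rw [mul_sum, ← sum_sub_distrib]
      exact sum_congr rfl fun k _ => by ring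
    rw [← h5, mul_one] at h8
    have h9 : ∑ k, c k ^ 2 * (-μ i - μ k) = 0 :=
      le_antisymm (by rw [h8]; linarith) (sum_nonneg h7)
    have h10 := (sum_eq_zero_iff_of_nonneg h7).1 h9
    have h11 : ∑ k, c k * c k = 0 := by
      refine sum_eq_zero fun k hk => ?_
      have h12 := h10 k hk
      have h13 := hno k
      rcases mul_eq_zero.1 h12 with h14 | h14
      · rw [← sq]
        exact h14
      · exfalso
        linarith
    rw [h11] at h5
    exact one_ne_zero h5

end Pool.Agent.Helper78.AE.SPECB
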